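import Pool.Agent.Lib.SCDO.AS9

set_option autoImplicit false

namespace Pool.Agent.Results.MP_0ccee8_co.AlmostHalf

/-- There is a constant `C > 0` such that for all `n` and all `K ≤ n / 2 - C n ^ (199 / 200)` the
`n`-cube has `K` pairwise edge-disjoint symmetric chain decompositions. -/
theorem result : ∃ C : ℝ, 0 < C ∧ ∀ n K : ℕ, (K : ℝ) ≤ n / 2 - C * (n : ℝ) ^ (199 / 200 : ℝ) →
    ∃ D : Fin K → Set (List (Finset (Fin n))),
      (∀ i : Fin K,
        (∀ c ∈ D i,
          (∃ a b : Finset (Fin n), c.head? = some a ∧ c.getLast? = some b ∧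
              a.card + b.card = n) ∧
          (∀ a b : Finset (Fin n), List.IsInfix [a, b] c →
              a ⊆ b ∧ b.card = a.card + 1)) ∧
        (∀ S : Finset (Fin n), ∃! c : List (Finset (Fin n)), c ∈ D i ∧ S ∈ c)) ∧
      (∀ i j : Fin K, i ≠ j →
        ∀ c ∈ D i, ∀ c' ∈ D j, ∀ a b : Finset (Fin n),
          List.IsInfix [a, b] c → List.IsInfix [a, b] c' → False) :=
  Pool.SCDO.half_power

end Pool.Agent.Results.MP_0ccee8_co.AlmostHalf
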